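import Pool.Agent.W719.AX.Phs

/-!
# Doubles: statements

The link of the tree `br t (ng t)`, an edge between the roots of `t` and of its mirror image, is
amphichiral, and its Kashaev invariant is positive up to the sign `(-1)^(N - 1)`.
-/

set_option autoImplicit false

namespace Pool.Agent.W719.AX

open Finset Filter Topology Metric
open Pool.Agent.W711.HT hiding XX
open Pool.Agent.W719.AR
open scoped Real

/-- the mirror image: all weights negated -/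
def ng : Tr → Tr
  | .vx a => .vx (-a)
  | .br t c => .br (ng t) (ng c)

/-- complex conjugation of the iterated integrals -/
def S_NG : Prop := ∀ (t : Tr) (N : ℕ) (ψ : ℂ), 2 ≤ N →
  XX (ng t) N ψ = (-1) ^ ne t * (starRingEnd ℂ) (XX t N ((starRingEnd ℂ) ψ))

/-- the iterated integral of a double -/
def S_DJT : Prop := ∀ (t : Tr) (N : ℕ), 2 ≤ N →
  JT (.br t (ng t)) N = (-1) ^ (ne t + 1) * ((∑ d ∈ range N,
    ‖upp (1 / N) fun ψ => Ea t.wt N ψ * XX t N ψ * Rp N d ψ * kr N ψ‖ ^ 2 / Sd N d ^ 4 : ℝ) : ℂ)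

/-- the Kashaev invariant of a double -/
def S_DBL : Prop := ∀ (t : Tr) (N : ℕ), 2 ≤ N → ∃ r : ℝ, 0 ≤ r ∧
  jt (.br t (ng t)) N (vN N) = (-1) ^ (N - 1) * r

/-- the expansion of a positive sequence -/
def S_POS : Prop := ∀ (a : ℕ → ℂ) (v : ℂ) (y : ℕ → ℂ), y 0 ≠ 0 →
  (∀ᶠ N : ℕ in atTop, ∃ r : ℝ, 0 ≤ r ∧ a N = (-1) ^ (N - 1) * r) →
  (∀ K : ℕ, ∃ C : ℝ, ∀ᶠ N : ℕ in atTop, ‖a N / (((Real.sqrt N) ^ 3 : ℝ) * Complex.exp (N * v)) -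
    ∑ k ∈ range K, y k / (N : ℂ) ^ k‖ ≤ C / (N : ℝ) ^ K) →
  ∃ x : ℕ → ℝ, 0 < x 0 ∧ ∀ K : ℕ, ∃ C : ℝ, ∀ᶠ N : ℕ in atTop,
    ‖(-1) ^ (N - 1) * a N / (((Real.sqrt N) ^ 3 * Real.exp (N * v.re) : ℝ) : ℂ) -
      ∑ k ∈ range K, (x k : ℂ) / (N : ℂ) ^ k‖ ≤ C / (N : ℝ) ^ K

end Pool.Agent.W719.AX
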