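import Pool.Agent.W719.AX.Gex
import Pool.Agent.W719.AR.Final
import Pool.Agent.W67.AX.UX2
import Pool.Agent.W637.AX.TC
import Pool.Agent.W414.AX.Ext
import Pool.Agent.W762.AX.Lx
import Pool.Agent.W991.AX.Si
import Pool.Agent.W290.AX.EMR
import Pool.Agent.W681.AX.EMS
import Pool.Agent.W125.AX.KXR
import Pool.Agent.W249.AX.KLog
import Pool.Agent.W701.AX.Kxc
import Pool.Agent.W352.AX.LocG
import Pool.Agent.W21.AX.LOCX
import Pool.Agent.W52.AX.CPDX
import Pool.Agent.W52.AX.PRDX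
import Pool.Agent.W688.AX.MainX
import Pool.Agent.W688.AX.StepX
import Pool.Agent.W351.AX.Fintx
import Pool.Agent.W215.AX.Rtx
import Pool.Agent.W658.AX.NG
import Pool.Agent.W366.AX.Djt
import Pool.Agent.W196.AX.DBL
import Pool.Agent.W922.AX.Pos

/-! Assembly: asymptotic expansions for highly twisted arborescent links. -/

set_option autoImplicit false

namespace Pool.Agent.W719.AX

open Pool.Agent Finset Filter Topology
open Pool.Agent.W711.HT hiding XX
open Pool.Agent.W719.AR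
open scoped Real

theorem f_EXP : S_UXEXP := W67.AX.uxexp W303.AX.uxbd W303.AX.uxmul

theorem f_LOG : S_UXLOG := W67.AX.uxlog W303.AX.uxbd W303.AX.uxmul

theorem f_LX : S_LX := W762.AX.lx W303.AX.uxbd

theorem f_KXC (hwin : S_WIN) : S_KXC :=
  W701.AX.kxc (W125.AX.kxr W290.AX.emr W681.AX.ems hwin f_RRD f_FARD) W249.AX.klog
    (W414.AX.ext W637.AX.tc) f_LOG f_EXP W303.AX.uxan

theorem f_STEPX : S_STEPX :=
  W688.AX.stepx W52.AX.cpdx0 f_LAPINT W583.HT.seq W398.HT.t_STPE upb (W352.AX.locg upb)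
    (W21.AX.locx f_LX W303.AX.uxmul) W303.AX.uxan

theorem f_MAINX (hwin : S_WIN) : S_MAINX :=
  W688.AX.mainx f_KER (f_KXC hwin) f_STEPX prd (W52.AX.prdx W303.AX.uxmul)

theorem f_SHP : S_SHP := W864.AR.shp W612.HT.hloc

theorem f_FINTX (hwin : S_WIN) : S_FINTX :=
  W351.AX.fintx (f_MAINX hwin) (W571.AR.cct W583.HTP.poth) (f_ANG f_SHP) (f_GMT f_SHP)

theorem f_RTX : S_RTX :=
  W215.AX.rtx (W334.AR.evt W637.AR.rote) (W571.AR.lmt W490.AR.lmd W12.AR.gam_lim)
    (W885.AR.lmr W490.AR.lmd W12.AR.gam_lim) W199.AR.lmv lmm W397.AR.cnt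

theorem f_FINX (hwin : S_WIN) : S_FINX := W962.AX.finx W303.AX.uxmul (f_FINTX hwin) f_RTX

theorem f_DBL : S_DBL := W196.AX.dbl (W366.AX.djt W658.AX.ng_XX) f_RTX

theorem f_POS : S_POS := W922.AX.pos W460.AX.rat

end Pool.Agent.W719.AX
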