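import Pool.Agent.W719.AX.FinA
import Pool.Agent.W613.AX.Win

/-! The final theorem: asymptotic expansions for highly twisted arborescent links. -/

set_option autoImplicit false

namespace Pool.Agent.W719.AX

theorem f_WIN : S_WIN := Pool.Agent.W613.AX.win W991.AX.si f_LX W303.AX.uxbd f_EXP

theorem g_FINX : S_FINX := f_FINX f_WIN

end Pool.Agent.W719.AX
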