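import Pool.Agent.W711.HT.Defs

/-!
# Uniform asymptotic expansions in powers of `1 / N`: general statements

Everything in this file is about holomorphic functions only (Mathlib and `Rc`).
-/

set_option autoImplicit false

namespace Pool.Agent.W719.AX

open Finset Filter Topology Metric
open Pool.Agent.W711.HT
open scoped Real

/-- `Y_N(p)` has the asymptotic expansion `A_0(p) + A_1(p) / N + A_2(p) / N^2 + …`, uniformly on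
`S` -/
def UX {E : Type} (Y : ℕ → E → ℂ) (A : ℕ → E → ℂ) (S : Set E) : Prop :=
  ∀ K : ℕ, ∃ C : ℝ, ∀ᶠ N : ℕ in atTop, ∀ p ∈ S,
    ‖Y N p - ∑ k ∈ range K, A k p / (N : ℂ) ^ k‖ ≤ C / (N : ℝ) ^ K

/-- the coefficients are bounded -/
def S_UXBD : Prop := ∀ (E : Type) (Y : ℕ → E → ℂ) (A : ℕ → E → ℂ) (S : Set E), UX Y A S →
  ∀ k : ℕ, ∃ C : ℝ, ∀ p ∈ S, ‖A k p‖ ≤ C

/-- coefficients of a product -/
noncomputable def cv {E : Type} (A B : ℕ → E → ℂ) (k : ℕ) (p : E) : ℂ :=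
  ∑ i ∈ range (k + 1), A i p * B (k - i) p

/-- products -/
def S_UXMUL : Prop := ∀ (E : Type) (Y Z : ℕ → E → ℂ) (A B : ℕ → E → ℂ) (S : Set E),
  UX Y A S → UX Z B S → UX (fun N p => Y N p * Z N p) (cv A B) S

/-- the exponential function -/
def S_UXEXP : Prop := ∀ (E : Type) (Y : ℕ → E → ℂ) (A : ℕ → E → ℂ) (S : Set E), UX Y A S →
  ∃ B : ℕ → E → ℂ, UX (fun N p => Complex.exp (Y N p)) B S ∧ ∀ p, B 0 p = Complex.exp (A 0 p)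

/-- real logarithms -/
def S_UXLOG : Prop := ∀ (E : Type) (Y L : ℕ → E → ℂ) (A : ℕ → E → ℂ) (S : Set E) (c : ℝ),
  0 < c → UX Y A S → (∀ p ∈ S, c ≤ ‖A 0 p‖) →
  (∀ᶠ N : ℕ in atTop, ∀ p ∈ S, (L N p).im = 0 ∧ Complex.exp (L N p) = Y N p) →
  ∃ B : ℕ → E → ℂ, UX L B S

/-- the coefficients of holomorphic functions are holomorphic -/
def S_UXAN : Prop := ∀ (Y : ℕ → ℂ → ℂ) (A : ℕ → ℂ → ℂ) (U : Set ℂ), IsOpen U →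
  (∀ᶠ N : ℕ in atTop, DifferentiableOn ℂ (Y N) U) → UX Y A U →
  ∀ k, DifferentiableOn ℂ (A k) U

/-- two constants: a bounded holomorphic function which is small on a real interval is small
nearby -/
def S_TC : Prop := ∀ ρ τ ρ' : ℝ, 0 < τ → 0 < ρ' → ρ' < ρ → ∃ τ' : ℝ, 0 < τ' ∧ τ' ≤ τ ∧
  ∀ (h : ℂ → ℂ) (B η : ℝ), 0 < η → η ≤ B → DifferentiableOn ℂ h (Rc ρ τ) →
    (∀ z ∈ Rc ρ τ, ‖h z‖ ≤ B) → (∀ x : ℝ, |x| < ρ → ‖h x‖ ≤ η) →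
    ∀ z ∈ Rc ρ' τ', ‖h z‖ ≤ Real.sqrt (B * η)

/-- an asymptotic expansion, valid on a real interval, of holomorphic functions which are
`O(N)` is valid on a complex neighbourhood, uniformly in a parameter -/
def S_EXT : Prop := ∀ ρ τ : ℝ, 0 < ρ → 0 < τ → ∃ ρ' τ' : ℝ, 0 < ρ' ∧ ρ' ≤ ρ ∧ 0 < τ' ∧ τ' ≤ τ ∧
  ∀ (Q : Type) (S : Set Q) (L : ℕ → ℂ → Q → ℂ) (a : ℕ → ℂ × Q → ℂ) (C₀ : ℝ),
    (∀ᶠ N : ℕ in atTop, ∀ q ∈ S, DifferentiableOn ℂ (fun z => L N z q) (Rc ρ τ) ∧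
      ∀ z ∈ Rc ρ τ, ‖L N z q‖ ≤ C₀ * N) →
    UX (fun N (x : ℂ × Q) => L N x.1 x.2) a ({z : ℂ | |z.re| < ρ ∧ z.im = 0} ×ˢ S) →
    ∃ A : ℕ → ℂ × Q → ℂ, UX (fun N (x : ℂ × Q) => L N x.1 x.2) A (Rc ρ' τ' ×ˢ S)

/-- Laplace's method to all orders, uniformly in a parameter -/
def S_LX : Prop := ∀ δ B c : ℝ, 0 < δ → 0 < c → ∃ δ' : ℝ, 0 < δ' ∧ δ' < δ ∧
  ∀ η : ℝ, 0 < η → η ≤ δ' →
  ∀ (E : Type) (S : Set E) (q : E → ℂ → ℂ) (H : ℕ → E × ℂ → ℂ) (h : ℕ → E × ℂ → ℂ),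
    (∀ p ∈ S, DifferentiableOn ℂ (q p) (ball 0 δ) ∧ (∀ u ∈ ball (0 : ℂ) δ, ‖q p u‖ ≤ B) ∧
      q p 0 = 0 ∧ deriv (q p) 0 = 0 ∧ (deriv (deriv (q p)) 0).re ≤ -c) →
    (∀ᶠ N : ℕ in atTop, ∀ p ∈ S, ContinuousOn (fun u => H N (p, u)) (ball 0 δ)) →
    (∀ k, ∀ p ∈ S, DifferentiableOn ℂ (fun u => h k (p, u)) (ball 0 δ)) →
    UX H h (S ×ˢ ball 0 δ) →
    ∃ A : ℕ → E → ℂ,
      UX (fun N p => (Real.sqrt N : ℂ) * ∫ x in (-η)..η, Complex.exp (N * q p x) * H N (p, x))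
        A S ∧
      ∀ p ∈ S, A 0 p = h 0 (p, 0) * (2 * π / (-(deriv (deriv (q p)) 0))) ^ (1 / 2 : ℂ)

/-- a sum over integers is an integral up to an exponentially small error -/
def S_SI : Prop := ∀ (F : ℂ → ℂ) (N a b : ℕ) (h M₁ M₂ : ℝ), 0 < N → a ≤ b → 1 ≤ N * h →
  (∀ x y : ℝ, ((a : ℝ) - 1 / 2) / N ≤ x → x ≤ ((b : ℝ) - 1 / 2) / N → |y| ≤ h →
    DifferentiableAt ℂ F (x + y * Complex.I)) →
  (∀ y : ℝ, |y| ≤ h → ‖F ((((a : ℝ) - 1 / 2) / N : ℝ) + y * Complex.I)‖ ≤ M₁ ∧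
    ‖F ((((b : ℝ) - 1 / 2) / N : ℝ) + y * Complex.I)‖ ≤ M₁) →
  (∀ x : ℝ, ((a : ℝ) - 1 / 2) / N ≤ x → x ≤ ((b : ℝ) - 1 / 2) / N →
    ‖F (x + h * Complex.I)‖ ≤ M₂ ∧ ‖F (x - h * Complex.I)‖ ≤ M₂) →
  ‖∑ d ∈ Ico a b, F ((d : ℂ) / N) -
    N * ∫ x in (((a : ℝ) - 1 / 2) / N)..(((b : ℝ) - 1 / 2) / N), F x‖ ≤
    4 * (M₁ + ((b : ℝ) - a) * M₂ * Real.exp (-(2 * π * N * h)))

end Pool.Agent.W719.AX
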