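import Pool.Agent.W719.AX.Dbl
import Pool.Agent.W962.AX.Finx
import Pool.Agent.W460.AX.RAT
import Pool.Agent.W303.AX.UX1

/-!
# From the expansions of the proof to those of the results
-/

set_option autoImplicit false

namespace Pool.Agent.W719.AX

open Finset Filter Topology Metric
open scoped Real

/-- the expansions of the proof -/
def EXY (a : ℕ → ℂ) (v : ℂ) (y : ℕ → ℂ) : Prop := ∀ K : ℕ, ∃ C : ℝ, ∀ᶠ N : ℕ in atTop,
  ‖a N / (((Real.sqrt N) ^ 3 : ℝ) * Complex.exp (N * v)) -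
    ∑ k ∈ range K, y k / (N : ℂ) ^ k‖ ≤ C / (N : ℝ) ^ K

theorem sqrt_cube {N : ℕ} : (Real.sqrt N) ^ 3 = (N : ℝ) ^ (3 / 2 : ℝ) := by
  rw [Real.sqrt_eq_rpow, ← Real.rpow_natCast, ← Real.rpow_mul (Nat.cast_nonneg N)]
  norm_num

/-- the expansions of the results -/
theorem EXY.expansion {a : ℕ → ℂ} {v : ℂ} {y : ℕ → ℂ} (h : EXY a v y) :
    ∀ M : ℕ, ∃ C : ℝ, ∀ᶠ N : ℕ in atTop, ∃ E : ℂ, ‖E‖ ≤ C / (N : ℝ) ^ M ∧
      a N = (((N : ℝ) ^ (3 / 2 : ℝ) : ℝ) : ℂ) * Complex.exp (v * N) *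
        (∑ k ∈ range M, y k / (2 * π * Complex.I) ^ k * (2 * π * Complex.I / N) ^ k + E) := by
  intro M
  obtain ⟨C, hC⟩ := h M
  refine ⟨C, ?_⟩
  filter_upwards [hC, eventually_ge_atTop 1] with N hN h1
  have hN0 : (0 : ℝ) < N := by exact_mod_cast h1
  have hNc : (N : ℂ) ≠ 0 := by exact_mod_cast hN0.ne'
  have h2 : (2 * π * Complex.I : ℂ) ≠ 0 := Complex.two_pi_I_ne_zero
  refine ⟨_, hN, ?_⟩
  have e1 : ∑ k ∈ range M, y k / (2 * π * Complex.I) ^ k * (2 * π * Complex.I / N) ^ k =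
      ∑ k ∈ range M, y k / (N : ℂ) ^ k := by
    refine sum_congr rfl fun k _ => ?_
    rw [div_pow]
    field_simp
  have h3 : (((N : ℝ) ^ (3 / 2 : ℝ) : ℝ) : ℂ) ≠ 0 := by
    have : (N : ℝ) ^ (3 / 2 : ℝ) ≠ 0 := (Real.rpow_pos_of_pos hN0 _).ne'
    exact_mod_cast this
  rw [e1, add_sub_cancel, sqrt_cube, mul_comm v, mul_div_cancel₀]
  exact mul_ne_zero h3 (Complex.exp_ne_zero _)

theorem EXY.ux {a : ℕ → ℂ} {v : ℂ} {y : ℕ → ℂ} (h : EXY a v y) :
    UX (fun N (_ : Unit) => a N / (((Real.sqrt N) ^ 3 : ℝ) * Complex.exp (N * v)))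
      (fun k _ => y k) Set.univ := by
  intro K
  obtain ⟨C, hC⟩ := h K
  exact ⟨C, hC.mono fun N hN _ _ => hN⟩

/-- the leading term -/
theorem EXY.leading {a : ℕ → ℂ} {v : ℂ} {y : ℕ → ℂ} (h : EXY a v y) :
    Tendsto (fun N : ℕ => a N / ((((N : ℝ) ^ (3 / 2 : ℝ) : ℝ) : ℂ) * Complex.exp (v * N))) atTop
      (𝓝 (y 0)) := by
  obtain ⟨C, hC⟩ := h 1
  rw [tendsto_iff_norm_sub_tendsto_zero]
  refine squeeze_zero' (Eventually.of_forall fun _ => norm_nonneg _) (hC.mono fun N hN => ?_)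
    (tendsto_const_div_atTop_nhds_zero_nat C)
  rw [Finset.sum_range_one, pow_zero, div_one, pow_one, sqrt_cube, mul_comm (N : ℂ) v] at hN
  exact hN

/-- change of framing, and of sign -/
theorem EXY.frame {a : ℕ → ℂ} {v : ℂ} {y : ℕ → ℂ} (h : EXY a v y) (hy : y 0 ≠ 0) (e f : ℤ) :
    ∃ y' : ℕ → ℂ, y' 0 ≠ 0 ∧ EXY (fun N : ℕ => (-1 : ℂ) ^ (f * ((N : ℤ) - 1)) *
      Complex.exp (π * Complex.I / N) ^ (e * ((N : ℤ) ^ 2 - 1)) * a N)
      (v + π * Complex.I * (e + f)) y' := by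
  have hux := W303.AX.uxmul Unit _ _ _ _ _ h.ux (W962.AX.ux_exp (-(π * Complex.I * e)))
  refine ⟨fun k => (-1 : ℂ) ^ f * cv (fun k (_ : Unit) => y k)
    (fun k _ => (-(π * Complex.I * e)) ^ k / (k.factorial : ℂ)) k (), ?_, ?_⟩
  · refine mul_ne_zero (zpow_ne_zero _ (by norm_num)) ?_
    unfold cv
    simpa using hy
  · intro K
    obtain ⟨C, hC⟩ := hux K
    refine ⟨C, ?_⟩
    filter_upwards [hC, eventually_ge_atTop 1] with N hN h1
    have hN0 : (0 : ℝ) < N := by exact_mod_cast h1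
    have hNc : (N : ℂ) ≠ 0 := by exact_mod_cast hN0.ne'
    have hb := hN () (Set.mem_univ _)
    have hf : (-1 : ℂ) ^ (f * ((N : ℤ) - 1)) = (-1 : ℂ) ^ f * Complex.exp (N * (π * Complex.I * f)) := by
      have e1 : Complex.exp (N * (π * Complex.I * f)) = (-1 : ℂ) ^ (f * (N : ℤ)) := by
        rw [← Complex.exp_pi_mul_I, ← Complex.exp_int_mul]
        congr 1
        push_cast
        ring
      rw [e1, mul_sub, mul_one, zpow_sub₀ (by norm_num : (-1 : ℂ) ≠ 0)]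
      have h4 : ((-1 : ℂ) ^ f)⁻¹ = (-1 : ℂ) ^ f := by
        rw [← inv_zpow]
        norm_num
      rw [div_eq_mul_inv, h4, mul_comm]
    have he : Complex.exp (π * Complex.I / N) ^ (e * ((N : ℤ) ^ 2 - 1)) =
        Complex.exp (N * (π * Complex.I * e)) * Complex.exp (-(π * Complex.I * e) / N) := by
      rw [← Complex.exp_int_mul, ← Complex.exp_add]
      congr 1
      push_cast
      field_simp
      ring
    have h5 : Complex.exp (N * (v + π * Complex.I * (e + f))) = Complex.exp (N * v) *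
        Complex.exp (N * (π * Complex.I * e)) * Complex.exp (N * (π * Complex.I * f)) := by
      rw [← Complex.exp_add, ← Complex.exp_add]
      congr 1
      ring
    have h6 : (((Real.sqrt N) ^ 3 : ℝ) : ℂ) ≠ 0 := by
      have : (Real.sqrt N) ^ 3 ≠ 0 := pow_ne_zero _ (Real.sqrt_pos.2 hN0).ne'
      exact_mod_cast this
    have h7 : ‖(-1 : ℂ) ^ f‖ = 1 := by
      rw [norm_zpow, norm_neg, norm_one, one_zpow]
    have key : (-1 : ℂ) ^ (f * ((N : ℤ) - 1)) * Complex.exp (π * Complex.I / N) ^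
        (e * ((N : ℤ) ^ 2 - 1)) * a N / (((Real.sqrt N) ^ 3 : ℝ) *
        Complex.exp (N * (v + π * Complex.I * (e + f)))) = (-1 : ℂ) ^ f *
        (a N / (((Real.sqrt N) ^ 3 : ℝ) * Complex.exp (N * v)) *
          Complex.exp (-(π * Complex.I * e) / N)) := by
      rw [hf, he, h5]
      have := Complex.exp_ne_zero (N * v)
      have := Complex.exp_ne_zero (N * (π * Complex.I * e))
      have := Complex.exp_ne_zero (N * (π * Complex.I * f))
      field_simp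
    rw [key]
    have e3 : ∑ k ∈ range K, (-1 : ℂ) ^ f * cv (fun k (_ : Unit) => y k)
        (fun k _ => (-(π * Complex.I * e)) ^ k / (k.factorial : ℂ)) k () / (N : ℂ) ^ k =
        (-1 : ℂ) ^ f * ∑ k ∈ range K, cv (fun k (_ : Unit) => y k)
        (fun k _ => (-(π * Complex.I * e)) ^ k / (k.factorial : ℂ)) k () / (N : ℂ) ^ k := by
      rw [mul_sum]
      exact sum_congr rfl fun k _ => mul_div_assoc _ _ _
    rw [e3, ← mul_sub, norm_mul, h7, one_mul]
    exact hb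

end Pool.Agent.W719.AX
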