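import Pool.Agent.W719.AX.Gen
import Pool.Agent.W719.AR.Ana

/-!
# Asymptotic expansion of the kernel: statements

`ker N ψ ψ' = N^(-3/2) e^(N s(ψ, ψ')) (A_0(ψ, ψ') + A_1(ψ, ψ') / N + …)`.  First for real
`ψ`, `ψ'` (Euler-Maclaurin summation and Laplace's method for the sum over `d`, whose critical
point is real), then for complex `ψ`, `ψ'` by `S_EXT`.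
-/

set_option autoImplicit false

namespace Pool.Agent.W719.AX

open Finset Filter Topology Metric
open Pool.Agent.W711.HT
open scoped Real

/-- real points -/
def Rl (ρ : ℝ) : Set ℂ := {z : ℂ | |z.re| < ρ ∧ z.im = 0}

/-- expansion of `R_d(ψ)`, `d = δ N`, `δ` near `1 / 4` -/
def S_EMR : Prop := ∃ ρ : ℝ, 0 < ρ ∧ ρ ≤ 1 / 16 ∧ ∃ u : ℕ → ℂ → ℂ → ℂ,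
  (∀ k, ∀ ψ ∈ ball (0 : ℂ) ρ, DifferentiableOn ℂ (fun δ => u k δ ψ) (ball (1 / 4) ρ)) ∧
  (∀ k, ∃ B : ℝ, ∀ δ ∈ ball (1 / 4 : ℂ) ρ, ∀ ψ ∈ ball (0 : ℂ) ρ, ‖u k δ ψ‖ ≤ B) ∧
  ∀ K : ℕ, ∃ C : ℝ, ∀ᶠ N : ℕ in atTop, ∀ d : ℕ, |(d : ℝ) / N - 1 / 4| < ρ →
    ∀ ψ ∈ ball (0 : ℂ) ρ, ∃ e : ℂ, ‖e‖ ≤ C / (N : ℝ) ^ K ∧
      Rp N d ψ = Complex.exp (N * rrF ((d : ℂ) / N) ψ +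
        ∑ k ∈ range K, u k ((d : ℂ) / N) ψ / (N : ℂ) ^ k + e)

/-- expansion of `S_d`, `d = δ N`, `δ` near `1 / 4`; `v_0(δ) = log (2 sin π δ)` -/
def S_EMS : Prop := ∃ ρ : ℝ, 0 < ρ ∧ ρ ≤ 1 / 16 ∧ ∃ v : ℕ → ℂ → ℂ,
  (∀ k, DifferentiableOn ℂ (v k) (ball (1 / 4) ρ)) ∧
  (∀ k, ∃ B : ℝ, ∀ δ ∈ ball (1 / 4 : ℂ) ρ, ‖v k δ‖ ≤ B) ∧
  ∀ K : ℕ, ∃ C : ℝ, ∀ᶠ N : ℕ in atTop, ∀ d : ℕ, |(d : ℝ) / N - 1 / 4| < ρ →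
    ∃ e : ℂ, ‖e‖ ≤ C / (N : ℝ) ^ K ∧
      (Sd N d : ℂ) ^ 2 = N * Complex.exp (2 * N * ssF ((d : ℂ) / N) +
        ∑ k ∈ range K, v k ((d : ℂ) / N) / (N : ℂ) ^ k + e)

/-- the normalised kernel -/
noncomputable def kx (s : ℂ → ℂ → ℂ) (N : ℕ) (x : ℂ × ℂ) : ℂ :=
  ((Real.sqrt N) ^ 3 : ℝ) * Complex.exp (-(N * s x.1 x.2)) * ker N x.1 x.2

/-- the window of the sum: sum over `d` near `N / 4`, uniformly in a parameter -/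
def S_WIN : Prop := ∀ (ρ c B : ℝ), 0 < ρ → ρ ≤ 1 / 16 → 0 < c →
  ∀ (E : Type) (S : Set E) (Θ : E → ℂ → ℂ) (δs : E → ℝ) (w : ℕ → E × ℂ → ℂ)
    (T : ℕ → ℕ → E → ℂ),
  (∀ p ∈ S, DifferentiableOn ℂ (Θ p) (ball (1 / 4) ρ) ∧ (∀ δ ∈ ball (1 / 4 : ℂ) ρ, ‖Θ p δ‖ ≤ B) ∧
    |δs p - 1 / 4| ≤ ρ / 4 ∧ deriv (Θ p) (δs p) = 0 ∧
    (∀ x : ℝ, |x - 1 / 4| < ρ → (Θ p x).im = 0) ∧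
    ∀ x : ℝ, |x - 1 / 4| < ρ → (deriv (deriv (Θ p)) x).re ≤ -c) →
  (∀ k, ∀ p ∈ S, DifferentiableOn ℂ (fun δ => w k (p, δ)) (ball (1 / 4) ρ)) →
  (∀ k, ∃ B' : ℝ, ∀ p ∈ S, ∀ δ ∈ ball (1 / 4 : ℂ) ρ, ‖w k (p, δ)‖ ≤ B') →
  (∀ K : ℕ, ∃ C : ℝ, ∀ᶠ N : ℕ in atTop, ∀ d : ℕ, |(d : ℝ) / N - 1 / 4| < ρ → ∀ p ∈ S,
    ∃ e : ℂ, ‖e‖ ≤ C / (N : ℝ) ^ K ∧ T N d p = Complex.exp (N * Θ p ((d : ℂ) / N) +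
      ∑ k ∈ range K, w k (p, (d : ℂ) / N) / (N : ℂ) ^ k + e)) →
  ∃ r : ℝ, 0 < r ∧ r < ρ ∧ ∃ A : ℕ → E → ℂ,
    UX (fun N p => ((Real.sqrt N : ℝ) : ℂ)⁻¹ * Complex.exp (-(N * Θ p (δs p))) *
      ∑ d ∈ (range N).filter (fun d : ℕ => |(d : ℝ) / N - 1 / 4| < r), T N d p) A S ∧
    ∀ p ∈ S, A 0 p = Complex.exp (w 0 (p, δs p)) *
      (2 * π / (-(deriv (deriv (Θ p)) (δs p)))) ^ (1 / 2 : ℂ)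

/-- the kernel at real points -/
def S_KXR : Prop := ∀ (ρ τ κ c : ℝ) (s dl : ℂ → ℂ → ℂ), KD ρ τ κ c s dl →
  ∃ ρ₁ : ℝ, 0 < ρ₁ ∧ ρ₁ ≤ ρ ∧ ∃ (a : ℕ → ℂ × ℂ → ℂ) (c₁ : ℝ), 0 < c₁ ∧
    UX (kx s) a (Rl ρ₁ ×ˢ Rl ρ₁) ∧ ∀ x ∈ Rl ρ₁ ×ˢ Rl ρ₁, c₁ ≤ ‖a 0 x‖

/-- logarithm of the kernel -/
def S_KLOG : Prop := ∀ (ρ τ κ c : ℝ) (s dl : ℂ → ℂ → ℂ), KD ρ τ κ c s dl →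
  ∃ (C₀ : ℝ) (L : ℕ → ℂ → ℂ → ℂ), ∀ᶠ N : ℕ in atTop,
    (∀ ψ' ∈ Rc ρ τ, DifferentiableOn ℂ (fun ψ => L N ψ ψ') (Rc ρ τ)) ∧
    (∀ ψ ∈ Rc ρ τ, DifferentiableOn ℂ (fun ψ' => L N ψ ψ') (Rc ρ τ)) ∧
    ∀ ψ ∈ Rc ρ τ, ∀ ψ' ∈ Rc ρ τ, ‖L N ψ ψ'‖ ≤ C₀ * N ∧ Complex.exp (L N ψ ψ') = kx s N (ψ, ψ') ∧
      (ψ.im = 0 → ψ'.im = 0 → (L N ψ ψ').im = 0)

/-- the expansion of the kernel near the origin -/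
structure KXD (ρ₂ τ₂ : ℝ) (s : ℂ → ℂ → ℂ) (A : ℕ → ℂ × ℂ → ℂ) : Prop where
  hρ : 0 < ρ₂
  hτ : 0 < τ₂
  ux : UX (kx s) A (Rc ρ₂ τ₂ ×ˢ Rc ρ₂ τ₂)
  d1 : ∀ k, ∀ ψ' ∈ Rc ρ₂ τ₂, DifferentiableOn ℂ (fun ψ => A k (ψ, ψ')) (Rc ρ₂ τ₂)
  d2 : ∀ k, ∀ ψ ∈ Rc ρ₂ τ₂, DifferentiableOn ℂ (fun ψ' => A k (ψ, ψ')) (Rc ρ₂ τ₂)
  nz : ∀ x ∈ Rc ρ₂ τ₂ ×ˢ Rc ρ₂ τ₂, A 0 x ≠ 0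

def S_KXC : Prop := ∀ (ρ τ κ c : ℝ) (s dl : ℂ → ℂ → ℂ), KD ρ τ κ c s dl →
  ∃ ρ₂ τ₂ : ℝ, ρ₂ ≤ ρ ∧ τ₂ ≤ τ ∧ ∃ A : ℕ → ℂ × ℂ → ℂ, KXD ρ₂ τ₂ s A

end Pool.Agent.W719.AX
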