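import Pool.Agent.W719.AX.Stp
import Pool.Agent.W719.AR.Rt

/-!
# Exact phases and the final expansion: statements
-/

set_option autoImplicit false

namespace Pool.Agent.W719.AX

open Finset Filter Topology Metric
open Pool.Agent.W711.HT hiding XX
open Pool.Agent.W719.AR
open scoped Real

/-- sum of the weights -/
def ws : Tr → ℤ
  | .vx a => a
  | .br t c => ws t + ws c

/-- the exact relation between the invariant and the iterated integral -/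
def S_RTX : Prop := ∀ (t : Tr) (N : ℕ), 2 ≤ N →
  jt t N (vN N) = (-1) ^ ((N - 1) * ne t) * (Complex.I * N ^ 2 / (2 * π)) ^ (ne t + 1) *
    kp N ^ ws t * JT t N

/-- the expansion of the Kashaev invariant to all orders -/
def S_FINX : Prop := ∀ D : ℕ, 1 ≤ D → ∃ M : ℝ, ∀ t : Tr, t.Big M D → 1 ≤ t.nc →
  ∃ (V : ℝ) (v : ℂ) (y : ℕ → ℂ),
    IsGreatest {W : ℝ | ∃ y : AT, y.shape = t ∧ y.IsAng ∧ y.vol = W} V ∧ 2 * π * v.re = V ∧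
    y 0 ≠ 0 ∧ ∀ K : ℕ, ∃ C : ℝ, ∀ᶠ N : ℕ in atTop,
      ‖jt t N (vN N) / (((Real.sqrt N) ^ 3 : ℝ) * Complex.exp (N * v)) -
        ∑ k ∈ range K, y k / (N : ℂ) ^ k‖ ≤ C / (N : ℝ) ^ K

/-- consequences of an expansion -/
def S_RAT : Prop := ∀ (a : ℕ → ℂ) (v : ℂ) (y : ℕ → ℂ), y 0 ≠ 0 →
  (∀ K : ℕ, ∃ C : ℝ, ∀ᶠ N : ℕ in atTop, ‖a N / (((Real.sqrt N) ^ 3 : ℝ) * Complex.exp (N * v)) -
    ∑ k ∈ range K, y k / (N : ℂ) ^ k‖ ≤ C / (N : ℝ) ^ K) →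
  (∀ᶠ N : ℕ in atTop, a N ≠ 0) ∧
  Tendsto (fun N : ℕ => a (N + 1) / a N) atTop (𝓝 (Complex.exp v)) ∧
  Tendsto (fun N : ℕ => a (N + 2) / a N) atTop (𝓝 (Complex.exp (2 * v))) ∧
  Tendsto (fun N : ℕ => 2 * π * (Real.log ‖a N‖ / N)) atTop (𝓝 (2 * π * v.re)) ∧
  ∃ l : ℕ → ℂ, (∀ᶠ N : ℕ in atTop, Complex.exp (l N) = a N) ∧
    Tendsto (fun N : ℕ => 2 * π * (l N / N)) atTop (𝓝 (2 * π * v)) ∧
    Tendsto (fun N : ℕ => l (N + 1) - l N) atTop (𝓝 v)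

end Pool.Agent.W719.AX
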