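import Pool.Agent.W719.AX.Ker

/-!
# Asymptotic expansions in the recursion: statements
-/

set_option autoImplicit false

namespace Pool.Agent.W719.AX

open Finset Filter Topology Metric
open Pool.Agent.W711.HT hiding XX
open Pool.Agent.W719.AR
open scoped Real

/-- closed rectangle -/
def Kr (ρ τ : ℝ) : Set ℂ := {z | |z.re| ≤ ρ ∧ |z.im| ≤ τ}

/-- the integrand near the critical point, `(-1)^N 2 sin w e^(i N w) e^(i a N w^2 / (4 π))`; here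
`kr` is replaced by its main part -/
noncomputable def ig (a : ℤ) (N : ℕ) (w : ℂ) : ℂ :=
  (-1) ^ N * (2 * Complex.sin w) * Complex.exp (Complex.I * N * w) * Ea a N w

/-- localisation of the integral at the critical point, uniformly in a parameter -/
def S_LOCG : Prop := ∀ (ρ τ C : ℝ) (a : ℤ) (E : Type) [MetricSpace E] (K : Set E)
  (Y : ℕ → ℂ → E → ℂ) (G : ℂ → E → ℂ) (z : E → ℂ), 0 < ρ → ρ ≤ 1 / 4 → 0 < τ → a ≠ 0 → 0 < C →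
  IsCompact K →
  (∀ N, ∀ p ∈ K, Differentiable ℂ (fun w => Y N w p)) →
  (∀ p ∈ K, DifferentiableOn ℂ (fun w => G w p) (Rc (2 * ρ) (2 * τ))) →
  ContinuousOn (fun x : ℂ × E => G x.1 x.2) (Rc (2 * ρ) (2 * τ) ×ˢ K) →
  ContinuousOn z K →
  (∀ ε : ℝ, 0 < ε → ∀ᶠ N : ℕ in atTop, ∀ w ∈ Rc (2 * ρ) (2 * τ), ∀ p ∈ K,
    Y N w p ≠ 0 ∧ |Real.log ‖Y N w p‖ - N * (G w p).re| ≤ ε * N) →
  (∀ p ∈ K, CPt C ρ τ a (z p) ∧ SAD a (fun w => G w p) ρ (z p)) →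
  (∃ κ' : ℝ, 0 < κ' ∧ ∀ᶠ N : ℕ in atTop, ∀ p ∈ K, ∀ x y : ℝ, ρ ≤ |x| → |x| ≤ π → |y| ≤ 1 / N →
    ‖Y N (x + y * Complex.I) p‖ ≤ Real.exp (N * ((qq a (fun w => G w p) (z p)).re - κ'))) →
  ∀ δ : ℝ, 0 < δ → (∀ p ∈ K, |(z p).re| + δ ≤ ρ) →
  ∃ κ' : ℝ, 0 < κ' ∧ ∀ᶠ N : ℕ in atTop, ∀ p ∈ K,
    ‖(upp (1 / N) fun w => Ea a N w * Y N w p * kr N w) -
      ∫ x in (-δ)..δ, ig a N (z p + x) * Y N (z p + x) p‖ ≤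
      Real.exp (N * ((qq a (fun w => G w p) (z p)).re - κ'))

/-- as `S_CPD`, with the analyticity of `zs` -/
def S_CPDX : Prop := ∀ (ρ τ κ c : ℝ) (s dl : ℂ → ℂ → ℂ), KD ρ τ κ c s dl → ∀ D : ℕ, 1 ≤ D →
  ∃ ε₀ C M : ℝ, 0 < ε₀ ∧ ε₀ ≤ κ / 16 ∧ 0 < C ∧ 0 < M ∧ C / M ≤ κ / 16 ∧
    ∀ (t : ℕ) (F : ℂ → ℂ), t ≤ D → DifferentiableOn ℂ F (Rc (3 * ρ) (3 * τ)) →
      (∀ ψ ∈ Rc (3 * ρ) (3 * τ), F (-ψ) = F ψ) →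
      (∀ ψ ∈ Rc (3 * ρ) (3 * τ), ‖F ψ - F 0 - t * (s 0 ψ - s 0 0)‖ ≤ ε₀) →
      ∀ a : ℤ, M ≤ |(a : ℝ)| →
        (∃ (F' : ℂ → ℂ) (zs : ℂ → ℂ), DifferentiableOn ℂ F' (Rc (3 * ρ) (3 * τ)) ∧
          DifferentiableOn ℂ zs (Rc (3 * ρ) (3 * τ)) ∧
          (∀ ψ ∈ Rc (3 * ρ) (3 * τ), F' (-ψ) = F' ψ) ∧
          (∀ ψ ∈ Rc (3 * ρ) (3 * τ), ‖F' ψ - F' 0 - (s 0 ψ - s 0 0)‖ ≤ ε₀ / D) ∧
          (∀ ψ ∈ Rc (3 * ρ) (3 * τ), ‖F' ψ - F 0 - s 0 ψ‖ ≤ C / |(a : ℝ)|) ∧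
          ∀ ψ' ∈ Rc (3 * ρ) (3 * τ), CPt C ρ τ a (zs ψ') ∧
            SAD a (fun w => F w + s w ψ') ρ (zs ψ') ∧
            Complex.I * a * zs ψ' / (2 * π) + Complex.I + deriv F (zs ψ') +
              deriv (fun w => s w ψ') (zs ψ') = 0 ∧
            F' ψ' = qq a F (zs ψ') + s (zs ψ') ψ' ∧
            HasDerivAt F' (deriv (fun w => s (zs ψ') w) ψ') ψ') ∧
        (1 ≤ t → ∃ z : ℂ, CPt C ρ τ a z ∧ SAD a F ρ z ∧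
          Complex.I * a * z / (2 * π) + Complex.I + deriv F z = 0 ∧
          ‖qq a F z - F 0‖ ≤ C / |(a : ℝ)|)

/-- the functions of the recursion have asymptotic expansions:
`X_N = N^(-2 m) (-1)^(N m) e^(N F) (A_0 + A_1 / N + …)` -/
structure GX (ρ₂ τ₂ : ℝ) (m : ℕ) (X : ℕ → ℂ → ℂ) (F : ℂ → ℂ) (A : ℕ → ℂ → ℂ) : Prop where
  ux : UX (fun N z => (N : ℂ) ^ (2 * m) * (-1) ^ (N * m) * Complex.exp (-(N * F z)) * X N z) A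
    (Rc ρ₂ τ₂)
  an : ∀ k, DifferentiableOn ℂ (A k) (Rc ρ₂ τ₂)
  nz : ∀ z ∈ Rc ρ₂ τ₂, A 0 z ≠ 0

/-- the constant one and products -/
def S_PRDX : Prop := ∀ ρ₂ τ₂ : ℝ,
  (∃ A : ℕ → ℂ → ℂ, GX ρ₂ τ₂ 0 (fun _ _ => 1) (fun _ => 0) A) ∧
  ∀ (m m' : ℕ) (X Y : ℕ → ℂ → ℂ) (F G : ℂ → ℂ) (A B : ℕ → ℂ → ℂ),
    GX ρ₂ τ₂ m X F A → GX ρ₂ τ₂ m' Y G B →
    ∃ C : ℕ → ℂ → ℂ, GX ρ₂ τ₂ (m + m') (fun N ψ => X N ψ * Y N ψ) (fun ψ => F ψ + G ψ) C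

/-- from the localisation to the expansion; `E` is the set of the parameters, `q` the exponent at
the critical point `z p` -/
def S_LOCX : Prop := ∀ (ρ₂ τ₂ δ c : ℝ) (m : ℕ) (a : ℤ) (E : Type) (S : Set E) (X : ℕ → ℂ → ℂ)
  (F : ℂ → ℂ) (A : ℕ → ℂ → ℂ) (k : ℕ → ℂ → E → ℂ) (k' : ℕ → ℂ × E → ℂ) (σ : ℂ → E → ℂ)
  (z V : E → ℂ) (W : ℕ → E → ℂ), 0 < δ → 0 < c → GX ρ₂ τ₂ m X F A →
  (∀ N, Differentiable ℂ (X N)) → DifferentiableOn ℂ F (Rc ρ₂ τ₂) →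
  (∀ p ∈ S, ∀ u ∈ ball (0 : ℂ) δ, z p + u ∈ Rc ρ₂ τ₂) →
  (∃ B : ℝ, ∀ w ∈ Rc ρ₂ τ₂, ‖F w‖ ≤ B ∧ ∀ p ∈ S, ‖σ w p‖ ≤ B) →
  (∀ N, ∀ p ∈ S, ContinuousOn (fun w => k N w p) (Rc ρ₂ τ₂)) →
  (∀ p ∈ S, DifferentiableOn ℂ (fun w => σ w p) (Rc ρ₂ τ₂)) →
  UX (fun N x => k N x.1 x.2) k' (Rc ρ₂ τ₂ ×ˢ S) →
  (∀ n, ∀ p ∈ S, DifferentiableOn ℂ (fun w => k' n (w, p)) (Rc ρ₂ τ₂)) →
  (∀ x ∈ Rc ρ₂ τ₂ ×ˢ S, k' 0 x ≠ 0) →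
  (∀ p ∈ S, Complex.sin (z p) ≠ 0 ∧ V p = qq a (fun w => F w + σ w p) (z p) ∧
    deriv (qq a (fun w => F w + σ w p)) (z p) = 0 ∧
    (deriv (deriv (qq a (fun w => F w + σ w p))) (z p)).re ≤ -c) →
  (∀ δ' : ℝ, 0 < δ' → δ' ≤ δ / 2 → ∃ κ' : ℝ, 0 < κ' ∧ ∀ᶠ N : ℕ in atTop, ∀ p ∈ S,
    ‖W N p - ∫ x in (-δ')..δ', ig a N (z p + x) *
      (X N (z p + x) * (Complex.exp (N * σ (z p + x) p) * k N (z p + x) p))‖ ≤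
      Real.exp (N * ((V p).re - κ'))) →
  ∃ B : ℕ → E → ℂ,
    UX (fun N p => (N : ℂ) ^ (2 * m) * (Real.sqrt N : ℂ) * (-1) ^ (N * (m + 1)) *
      Complex.exp (-(N * V p)) * W N p) B S ∧ ∀ p ∈ S, B 0 p ≠ 0

/-- the induction step with expansions, and the last step -/
def S_STEPX : Prop := ∀ (ρ τ κ c : ℝ) (s dl : ℂ → ℂ → ℂ), KD ρ τ κ c s dl →
  ∀ (ρ₂ τ₂ : ℝ) (Ak : ℕ → ℂ × ℂ → ℂ), ρ₂ ≤ ρ → τ₂ ≤ τ → KXD ρ₂ τ₂ s Ak → ∀ D : ℕ, 1 ≤ D →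
  ∃ ε₀ C M : ℝ, 0 < ε₀ ∧ 0 < C ∧ 0 < M ∧
    (∀ (t m : ℕ) (X : ℕ → ℂ → ℂ) (F : ℂ → ℂ) (A : ℕ → ℂ → ℂ), t ≤ D →
      GoodD ρ τ κ ε₀ D s t X F → GX ρ₂ τ₂ m X F A →
      ∀ a : ℤ, M ≤ |(a : ℝ)| → ∃ (F' : ℂ → ℂ) (zs : ℂ → ℂ) (A' : ℕ → ℂ → ℂ),
        GoodD ρ τ κ ε₀ D s 1 (stp a X) F' ∧ GX ρ₂ τ₂ (m + 1) (stp a X) F' A' ∧
        ‖F' 0 - F 0 - s 0 0‖ ≤ C / |(a : ℝ)| ∧
        ∀ ψ' ∈ Rc (3 * ρ) (3 * τ), CPt C ρ τ a (zs ψ') ∧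
          Complex.I * a * zs ψ' / (2 * π) + Complex.I + deriv F (zs ψ') +
            deriv (fun w => s w ψ') (zs ψ') = 0 ∧
          F' ψ' = qq a F (zs ψ') + s (zs ψ') ψ' ∧
          HasDerivAt F' (deriv (fun w => s (zs ψ') w) ψ') ψ') ∧
    (∀ (t m : ℕ) (X : ℕ → ℂ → ℂ) (F : ℂ → ℂ) (A : ℕ → ℂ → ℂ), 1 ≤ t → t ≤ D →
      GoodD ρ τ κ ε₀ D s t X F → GX ρ₂ τ₂ m X F A →
      ∀ a : ℤ, M ≤ |(a : ℝ)| → ∃ (z : ℂ) (y : ℕ → ℂ), CPt C ρ τ a z ∧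
        Complex.I * a * z / (2 * π) + Complex.I + deriv F z = 0 ∧
        ‖qq a F z - F 0‖ ≤ C / |(a : ℝ)| ∧ y 0 ≠ 0 ∧
        UX (fun N (_ : Unit) => (N : ℂ) ^ (2 * m) * (Real.sqrt N : ℂ) * (-1) ^ (N * (m + 1)) *
          Complex.exp (-(N * qq a F z)) * upp (1 / N) fun ψ => Ea a N ψ * X N ψ * kr N ψ)
          (fun k _ => y k) Set.univ)

/-- number of edges -/
def ne : Tr → ℕ
  | .vx _ => 0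
  | .br t c => ne t + ne c + 1

/-- the iterated integral has an asymptotic expansion, with the value at a critical configuration
as exponent -/
def S_MAINX : Prop := ∃ (ρ τ κ c : ℝ) (s dl : ℂ → ℂ → ℂ), KD ρ τ κ c s dl ∧
  ∀ D : ℕ, 1 ≤ D → ∃ C M : ℝ, 0 < C ∧ 0 < M ∧ ∀ t : Tr, t.Big M D → 1 ≤ t.nc →
    ∃ (p : PT) (y : ℕ → ℂ), p.shape = t ∧ p.Crt s C ρ τ ∧ CPt C ρ τ p.wt p.rz ∧
      Complex.I * p.wt * p.rz / (2 * π) + Complex.I + p.gs s = 0 ∧ y 0 ≠ 0 ∧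
      UX (fun N (_ : Unit) => (N : ℂ) ^ (2 * ne t) * (Real.sqrt N : ℂ) * (-1) ^ (N * (ne t + 1)) *
        Complex.exp (-(N * (Complex.I * p.wt * p.rz ^ 2 / (4 * π) + Complex.I * p.rz + p.vl s))) *
        JT t N) (fun k _ => y k) Set.univ

/-- the expansion together with the volume -/
def S_FINTX : Prop := ∀ D : ℕ, 1 ≤ D → ∃ M : ℝ, ∀ t : Tr, t.Big M D → 1 ≤ t.nc →
  ∃ (V : ℝ) (v : ℂ) (y : ℕ → ℂ),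
    IsGreatest {W : ℝ | ∃ y : AT, y.shape = t ∧ y.IsAng ∧ y.vol = W} V ∧ 2 * π * v.re = V ∧
    y 0 ≠ 0 ∧
    UX (fun N (_ : Unit) => (N : ℂ) ^ (2 * ne t) * (Real.sqrt N : ℂ) * (-1) ^ (N * (ne t + 1)) *
      Complex.exp (-(N * v)) * JT t N) (fun k _ => y k) Set.univ

end Pool.Agent.W719.AX
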